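import Pool.Agent.X69.Ric.Pack

/-!
Cunningham chains of the first kind without small prime factors. Additive energy and pair correlations of the multiples.
-/

set_option autoImplicit false

namespace Pool.Agent.Results.MP_c77da8_nt.PairCorrelations

open Filter MeasureTheory

/-- The sequence `n, 2 n + 1, 4 n + 3, ...` of length `k`, with the terms `2 ^ i (n + 1) - 1`. -/
def chain (k n : ℕ) : Fin k → ℕ := fun i => 2 ^ (i : ℕ) * (n + 1) - 1

/-- `Many g A`: for some `c > 0` and all large `X`, the set `A` has at least `c X / (log X) ^ g` elements in `[1, X]`. -/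
def Many (g : ℕ) (A : Set ℕ) : Prop :=
  ∃ c : ℝ, 0 < c ∧ ∀ᶠ X : ℕ in atTop, c * X / Real.log X ^ g ≤ ((A ∩ Set.Icc 1 X).ncard : ℝ)

/-- No prime factor of a component of `f n` is less than `n ^ δ`. -/
def Rough {g : ℕ} (f : ℕ → Fin g → ℕ) (δ : ℝ) (n : ℕ) : Prop :=
  ∀ i, ∀ p : ℕ, p.Prime → p ∣ f n i → (n : ℝ) ^ δ ≤ p

/-- The `n ≥ 1` such that all the components of `f n` have at most `r` prime factors, counted with multiplicity,
none of them less than `n ^ (1 / r)`. -/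
def Almost {g : ℕ} (f : ℕ → Fin g → ℕ) (r : ℕ) : Set ℕ :=
  {n | 1 ≤ n ∧ ∀ i, ArithmeticFunction.cardFactors (f n i) ≤ r ∧
    ∀ p : ℕ, p.Prime → p ∣ f n i → (n : ℝ) ^ (1 / (r : ℝ)) ≤ p}

/-- The additive energy of the first `N` elements of `A = {a 0 < a 1 < ...}`: the number of the quadruples
`(i, j, k, l)` of indices below `N` with `a i + a j = a k + a l`. -/
noncomputable def energy (A : Set ℕ) (N : ℕ) : ℕ :=
  (((Finset.range N ×ˢ Finset.range N) ×ˢ (Finset.range N ×ˢ Finset.range N)).filter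
    (fun p => Nat.nth (· ∈ A) p.1.1 + Nat.nth (· ∈ A) p.1.2 =
      Nat.nth (· ∈ A) p.2.1 + Nat.nth (· ∈ A) p.2.2)).card

/-- The multiples `a 0 α, a 1 α, ...` of `α` by the elements of `A` have Poissonian pair correlations modulo one:
for every `s > 0` the number of the pairs `(k, l)` of distinct indices below `N` with `‖a k α - a l α‖ < s / N`
(distance to the nearest integer), divided by `N`, tends to `2 s`. -/
def Poissonian (A : Set ℕ) (α : ℝ) : Prop := ∀ s : ℝ, 0 < s →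
  Tendsto (fun N : ℕ => (1 / (N : ℝ)) * ((((Finset.range N) ×ˢ (Finset.range N)).filter
    (fun p => p.1 ≠ p.2 ∧
      |(Nat.nth (· ∈ A) p.1 : ℝ) * α - (Nat.nth (· ∈ A) p.2 : ℝ) * α -
        round ((Nat.nth (· ∈ A) p.1 : ℝ) * α - (Nat.nth (· ∈ A) p.2 : ℝ) * α)| < s / N)).card : ℝ))
    atTop (nhds (2 * s))

theorem result : ∀ k : ℕ, 2 ≤ k →
    (∀ A : Set ℕ, ∀ δ : ℝ, 0 < δ → (∀ n ∈ A, Rough (chain k) δ n) → Many k A →
      (∃ C : ℝ, 0 < C ∧ ∀ᶠ N : ℕ in atTop, (energy A N : ℝ) ≤ C * ((N : ℝ) ^ 3 / Real.log N ^ k)) ∧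
      ∀ᵐ α : ℝ, Poissonian A α) ∧
    ∃ r : ℕ, 1 ≤ r ∧ Many k (Almost (chain k) r) ∧ ∀ᵐ α : ℝ, Poissonian (Almost (chain k) r) α := by
  intro k hk
  refine Pool.Agent.X69.Ric.pack_ppc (by omega) (a := fun i : Fin k => (2 : ℤ) ^ (i : ℕ)) (b := fun i : Fin k => (2 : ℤ) ^ (i : ℕ) - 1)
    (f := chain k) (fun i => by positivity) ?_ ?_ ?_
  · intro i j hij h
    have h2 : (2 : ℤ) ^ (i : ℕ) = 2 ^ (j : ℕ) := by linarith
    exact hij (Fin.ext (Nat.pow_right_injective le_rfl (by exact_mod_cast h2)))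
  · intro p hp
    have h1 : ¬ (p : ℤ) ∣ 1 := fun h => hp.one_lt.ne' (Nat.dvd_one.1 (by exact_mod_cast h))
    refine ⟨-1, fun i h => h1 ?_⟩
    have h2 : (2 : ℤ) ^ (i : ℕ) * (-1) + (2 ^ (i : ℕ) - 1) = -1 := by ring
    rw [h2] at h
    exact (dvd_neg).1 h
  · intro n hn i
    have h2 : 1 ≤ 2 ^ (i : ℕ) * (n + 1) := Nat.one_le_iff_ne_zero.2 (by positivity)
    show ((2 ^ (i : ℕ) * (n + 1) - 1 : ℕ) : ℤ) = _
    rw [Nat.cast_sub h2]
    push_cast
    ring

end Pool.Agent.Results.MP_c77da8_nt.PairCorrelations
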